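import Pool.Agent.H754.Pretzel.Cls4
import Pool.Agent.H754.Pretzel.Coord1
import Pool.Agent.H754.Pretzel.Model
import Pool.Agent.H754.Pretzel.Blocks

/-!
# Every slice odd pretzel knot is mutant ribbon: the lattice theorem

Let `K` be an odd pretzel knot: all parameters are odd, `1` and `-1` are allowed, and the number of
strands is arbitrary. Up to mirror images, the odd pretzel knots of signature `0` are the knots
`K = P(p₁, …, p_m, -q₁, …, -q_{m+1})` with `p_i, q_j ≥ 1` odd and `∑ 1 / p_i < ∑ 1 / q_j`. The double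
branched cover `Y` of `K` bounds the negative definite plumbing with the following tree: a centre of
weight `-(m + 1)`, for each `j` a chain of `q_j - 1` vertices of weight `-2` attached to the centre
(no vertex if `q_j = 1`), and for each `i` a leaf of weight `-p_i` attached to the centre. Here
`form` is the intersection form of this plumbing, of rank `∑ q_j`.

If `K` is slice, then `Y` bounds a rational homology ball; by Donaldson's theorem and by the formula
of Ozsváth and Szabó for the correction terms of `Y` (the plumbing has at most one bad vertex) there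
is an embedding of the plumbing lattice in the negative definite standard lattice of the same rank
such that each characteristic vector is congruent modulo twice the image to a vector all whose
entries are `1` or `-1` (`Admissible`; the condition used by Greene and Jabuka).

The theorem says that this is so if and only if, for some multiset `S`, the multisets `{p_i}`,
`{q_j}` are `S` and `{c} ∪ S`, or `{c + 4} ∪ S` and `{1, c} ∪ S`, or `{3, 3, 3} ∪ S` and
`{1, 1, 1, 1} ∪ S`. In these cases, `K` is a mutant of a knot obtained from the ribbon knot `P(-c)`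
(the unknot), from the ribbon knot `P(c + 4, -1, -c)` (a 2-bridge knot of determinant `(c + 2)²`) or
from the ribbon knot `P(3, 3, 3, -1, -1, -1, -1)` (the knot `10_75`) by adding pairs of strands
`s, -s`, and so it is mutant ribbon.

Proof. A parity argument shows that the centre is embedded in the standard way, so that the
embedding is given by integral vectors `a_i` with sum `1` which are orthogonal for the form
`∑ q_j x_j²`. Let `λ` be the functional on `ℤ^{m+1}` which vanishes on all `a_i`. Its weights are
nonnegative (Bessel's inequality). The covering condition for suitable vectors implies that the torsion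
of `ℤ^{m+1} / ⟨a_i⟩` is trivial, or of order three and given by one column of weight `q_j = 1`, that the
positive weights are distinct if there is no torsion, and that small heights are sums of the weights
of the columns with `q_j = 1`. The lattice `⟨a_i⟩` has an orthogonal basis; this excludes all
systems of weights except those above.
-/

set_option autoImplicit false

namespace Pool.Agent.Results.MP_752436_gt.EveryOddPretzelKnot

open Matrix

/-- The vertices of the plumbing tree: the centre, the `q j - 1` vertices of the `j`-th chain, and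
the leaves. -/
inductive Vertex {m : ℕ} (q : Fin (m + 1) → ℕ) : Type
  | centre : Vertex q
  | chain (j : Fin (m + 1)) (s : Fin (q j - 1)) : Vertex q
  | leaf (i : Fin m) : Vertex q

/-- The intersection form of the plumbing: the centre has weight `-(m + 1)`, the vertices of the chains
have weight `-2`, the leaves have weights `-p i`; the first vertex of each chain and the leaves are
adjacent to the centre, and consecutive vertices of a chain are adjacent. -/
def form {m : ℕ} (p : Fin m → ℕ) (q : Fin (m + 1) → ℕ) : Vertex q → Vertex q → ℤ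
  | .centre, .centre => -((m : ℤ) + 1)
  | .centre, .chain _ s => if (s : ℕ) = 0 then 1 else 0
  | .chain _ s, .centre => if (s : ℕ) = 0 then 1 else 0
  | .centre, .leaf _ => 1
  | .leaf _, .centre => 1
  | .chain j s, .chain l r =>
      if j = l then
        if (s : ℕ) = r then -2 else if (s : ℕ) + 1 = r ∨ (r : ℕ) + 1 = s then 1 else 0
      else 0
  | .chain _ _, .leaf _ => 0
  | .leaf _, .chain _ _ => 0
  | .leaf i, .leaf l => if i = l then -(p i : ℤ) else 0

/-- The plumbing lattice has an embedding in the negative definite standard lattice of rank `∑ q_j`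
such that each characteristic vector (all entries odd) is congruent modulo twice the image of the
lattice to a vector with entries `1` and `-1`. -/
def Admissible {m : ℕ} (p : Fin m → ℕ) (q : Fin (m + 1) → ℕ) : Prop :=
  ∃ V : Vertex q → Fin (∑ j, q j) → ℤ,
    (∀ x y, -(V x ⬝ᵥ V y) = form p q x y) ∧
      ∀ x : Fin (∑ j, q j) → ℤ, (∀ t, Odd (x t)) →
        ∃ e : Fin (∑ j, q j) → ℤ, (∀ t, e t = 1 ∨ e t = -1) ∧
          ∃ l ∈ AddSubgroup.closure (Set.range V), x = e + 2 • l

open Pool.Agent.H754.Pretzel Finset

theorem system {m : ℕ} (p : Fin m → ℕ) (q : Fin (m + 1) → ℕ) (hp : ∀ i, Odd (p i))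
    (hq : ∀ j, Odd (q j)) (h : Admissible p q) : ∃ a : Fin m → Fin (m + 1) → ℤ, Sys q p a := by
  obtain ⟨V, hV, hcov⟩ := h
  have hdot : ∀ x y, V x ⬝ᵥ V y = -form p q x y := fun x y => by rw [← hV]; ring
  let v : Fin (m + 1) → ℕ → Fin (∑ j, q j) → ℤ := fun j s =>
    if h : s < q j - 1 then V (.chain j ⟨s, h⟩) else 0
  have hv : ∀ j s (h : s < q j - 1), v j s = V (.chain j ⟨s, h⟩) := fun j s h => dif_pos h
  have star : Star1 q (V .centre) v (fun i => V (.leaf i)) := by
    refine ⟨?_, ?_, ?_, ?_, ?_, ?_, ?_, ?_, ?_, ?_⟩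
    · rw [hdot]; simp [form]
    · intro j hj
      rw [hv j 0 hj, hdot]; simp [form]
    · intro j s h0 hs
      rw [hv j s hs, hdot]; simp [form, h0.ne']
    · intro j s hs
      rw [hv j s hs, hdot]; simp [form]
    · intro j s hs
      rw [hv j s (by omega), hv j (s + 1) hs, hdot]; simp [form]
    · intro j s r h hr
      rw [hv j s (by omega), hv j r hr, hdot]
      simp only [form, if_true]
      rw [if_neg (by omega), if_neg (by omega)]
      rfl
    · intro j l s r hjl hs hr
      rw [hv j s hs, hv l r hr, hdot]; simp [form, hjl]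
    · intro i j s hs
      rw [hv j s hs, hdot]; simp [form]
    · intro i
      rw [hdot]; simp [form]
    · intro i l hil
      rw [hdot]; simp [form, hil]
  exact star.sys hq (by simp) (by simp) p (fun i => by rw [hdot]; simp [form]) hp
    (AddSubgroup.closure (Set.range V)) (by
      apply AddSubgroup.closure_mono
      rintro _ ⟨x, rfl⟩
      rcases x with _ | ⟨j, s⟩ | i
      · exact Or.inl (Or.inl rfl)
      · exact Or.inl (Or.inr ⟨j, s, s.2, (hv j s s.2).symm⟩)
      · exact Or.inr ⟨i, rfl⟩) hcov

/-- the embedding given by rows, with index set the disjoint union of the blocks -/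
def emb {m : ℕ} {q : Fin (m + 1) → ℕ} (a : Fin m → Fin (m + 1) → ℤ) :
    Vertex q → (Σ j, Fin (q j)) → ℤ
  | .centre => fun r => if (r.2 : ℕ) = 0 then -1 else 0
  | .chain j s => ev ⟨j, ⟨s, by omega⟩⟩ - ev ⟨j, ⟨s + 1, by omega⟩⟩
  | .leaf i => fun r => a i r.1

theorem ev_dot {m : ℕ} {q : Fin (m + 1) → ℕ} (r : Σ j, Fin (q j)) (u : (Σ j, Fin (q j)) → ℤ) :
    ev r ⬝ᵥ u = u r := by
  rw [ev, single_dotProduct, one_mul]

theorem ev_apply {m : ℕ} {q : Fin (m + 1) → ℕ} (j l : Fin (m + 1)) (s : Fin (q j))
    (r : Fin (q l)) : ev (q := q) ⟨j, s⟩ ⟨l, r⟩ = if j = l ∧ (s : ℕ) = r then 1 else 0 := by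
  rw [ev, Pi.single_apply]
  by_cases h : j = l
  · subst h
    by_cases h' : (s : ℕ) = r
    · have : s = r := Fin.ext h'
      subst this
      simp
    · rw [if_neg, if_neg]
      · exact fun h => h' h.2
      · intro h
        apply h'
        have := (Sigma.mk.inj_iff.1 h).2
        rw [eq_of_heq this]
  · rw [if_neg, if_neg]
    · exact fun h' => h h'.1
    · intro h'
      exact h (congrArg Sigma.fst h').symm

theorem emb_form {m : ℕ} {p : Fin m → ℕ} {q : Fin (m + 1) → ℕ} (hq : ∀ j, 0 < q j)
    {a : Fin m → Fin (m + 1) → ℤ} (h : Model q p a) :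
    ∀ x y : Vertex q, -(emb a x ⬝ᵥ emb a y) = form p q x y := by
  have hcen : ∀ u : Fin (m + 1) → ℤ, (fun r : Σ j, Fin (q j) => u r.1) ⬝ᵥ
      emb (q := q) a .centre = -∑ j, u j := by
    intro u
    rw [dotProduct, Fintype.sum_sigma, ← sum_neg_distrib]
    apply sum_congr rfl
    intro j _
    rw [sum_eq_single_of_mem (⟨0, hq j⟩ : Fin (q j)) (mem_univ _)]
    · simp [emb]
    · intro s _ hs
      have : (s : ℕ) ≠ 0 := fun h => hs (Fin.ext h)
      simp [emb, this]
  have hcc : emb (q := q) a .centre ⬝ᵥ emb a .centre = (m : ℤ) + 1 := by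
    rw [dotProduct, Fintype.sum_sigma]
    have : ∀ j : Fin (m + 1), ∑ s : Fin (q j), emb (q := q) a .centre ⟨j, s⟩ *
        emb a .centre ⟨j, s⟩ = 1 := by
      intro j
      rw [sum_eq_single_of_mem (⟨0, hq j⟩ : Fin (q j)) (mem_univ _)]
      · simp [emb]
      · intro s _ hs
        have : (s : ℕ) ≠ 0 := fun h => hs (Fin.ext h)
        simp [emb, this]
    rw [sum_congr rfl fun j _ => this j]
    simp
  have hchain : ∀ j s (u : (Σ j, Fin (q j)) → ℤ), emb (q := q) a (.chain j s) ⬝ᵥ u =
      u ⟨j, ⟨s, by omega⟩⟩ - u ⟨j, ⟨s + 1, by omega⟩⟩ := by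
    intro j s u
    rw [emb, sub_dotProduct, ev_dot, ev_dot]
  have hlc : ∀ i, emb (q := q) a (.leaf i) ⬝ᵥ emb a .centre = -1 := by
    intro i
    have := hcen (a i)
    rw [h.a1 i] at this
    exact this
  have hll : ∀ i l, emb (q := q) a (.leaf i) ⬝ᵥ emb a (.leaf l) =
      if i = l then (p i : ℤ) else 0 := by
    intro i l
    have h1 : emb (q := q) a (.leaf i) ⬝ᵥ emb a (.leaf l) = bil q (a i) (a l) := by
      rw [dotProduct, Fintype.sum_sigma]
      unfold bil
      apply sum_congr rfl
      intro j _
      simp only [emb, sum_const, card_univ, Fintype.card_fin, nsmul_eq_mul]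
      ring
    rw [h1]
    by_cases hil : i = l
    · rw [if_pos hil, ← hil, h.nrm]
    · rw [if_neg hil, h.a2 i l hil]
  rintro (_ | ⟨j, s⟩ | i) (_ | ⟨l, r⟩ | k)
  · rw [hcc]; rfl
  · rw [dotProduct_comm, hchain]
    by_cases h : (r : ℕ) = 0 <;> simp [emb, form, h]
  · rw [dotProduct_comm, hlc]; simp [form]
  · rw [hchain]
    by_cases h : (s : ℕ) = 0 <;> simp [emb, form, h]
  · rw [hchain]
    simp only [emb, Pi.sub_apply, ev_apply, form]
    have hs := s.2
    have hr := r.2
    by_cases hjl : j = l
    · subst hjl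
      simp only [true_and, if_true]
      by_cases h1 : (s : ℕ) = r
      · have e1 : (r : ℕ) = s := h1.symm
        have e2 : ¬ ((r : ℕ) + 1 = s) := by omega
        have e3 : ¬ ((r : ℕ) = s + 1) := by omega
        have e4 : ((r : ℕ) + 1 = s + 1) := by omega
        rw [if_pos e1, if_neg e2, if_neg e3, if_pos e4, if_pos h1]
        norm_num
      · by_cases h2 : (s : ℕ) + 1 = r
        · have e1 : ¬ ((r : ℕ) = s) := by omega
          have e2 : ¬ ((r : ℕ) + 1 = s) := by omega
          have e3 : ((r : ℕ) = s + 1) := by omega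
          have e4 : ¬ ((r : ℕ) + 1 = s + 1) := by omega
          rw [if_neg e1, if_neg e2, if_pos e3, if_neg e4, if_neg h1, if_pos (Or.inl h2)]
          norm_num
        · by_cases h3 : (r : ℕ) + 1 = s
          · have e1 : ¬ ((r : ℕ) = s) := by omega
            have e3 : ¬ ((r : ℕ) = s + 1) := by omega
            have e4 : ¬ ((r : ℕ) + 1 = s + 1) := by omega
            rw [if_neg e1, if_pos h3, if_neg e3, if_neg e4, if_neg h1, if_pos (Or.inr h3)]
            norm_num
          · have e1 : ¬ ((r : ℕ) = s) := by omega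
            have e3 : ¬ ((r : ℕ) = s + 1) := by omega
            have e4 : ¬ ((r : ℕ) + 1 = s + 1) := by omega
            rw [if_neg e1, if_neg h3, if_neg e3, if_neg e4, if_neg h1,
              if_neg (by rintro (h | h) <;> contradiction)]
            norm_num
    · have hlj : ¬ l = j := fun h => hjl h.symm
      simp [hjl, hlj]
  · rw [hchain]; simp [emb, form]
  · rw [hlc]; simp [form]
  · rw [dotProduct_comm, hchain]; simp [emb, form]
  · rw [hll]
    by_cases h : i = k <;> simp [form, h]

theorem emb_covers {m : ℕ} {p : Fin m → ℕ} {q : Fin (m + 1) → ℕ} (hq : ∀ j, 0 < q j)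
    {a : Fin m → Fin (m + 1) → ℤ} (h : Model q p a) (x : (Σ j, Fin (q j)) → ℤ)
    (hx : ∀ t, Odd (x t)) :
    ∃ e : (Σ j, Fin (q j)) → ℤ, (∀ t, e t = 1 ∨ e t = -1) ∧
      ∃ l ∈ AddSubgroup.closure (Set.range (emb (q := q) a)), x = e + 2 • l := by
  set L := AddSubgroup.closure (Set.range (emb (q := q) a)) with hL
  have hmem : ∀ v, emb (q := q) a v ∈ L := fun v => AddSubgroup.subset_closure ⟨v, rfl⟩
  -- half sums
  have hy : ∀ j, ∃ y : ℤ, ∑ s : Fin (q j), x ⟨j, s⟩ = 2 * y - q j := by
    intro j
    choose z hz using fun s : Fin (q j) => hx ⟨j, s⟩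
    refine ⟨∑ s, z s + q j, ?_⟩
    rw [sum_congr rfl fun s _ => hz s, sum_add_distrib, ← mul_sum]
    simp
    ring
  choose y hy using hy
  obtain ⟨b, hb, t, n, hyn⟩ := h.cov y
  let e : (Σ j, Fin (q j)) → ℤ := fun r => if ((r.2 : ℕ) : ℤ) < b r.1 then 1 else -1
  have he : ∀ t, e t = 1 ∨ e t = -1 := fun t => by
    simp only [e]
    split_ifs
    · exact Or.inl rfl
    · exact Or.inr rfl
  have hes : ∀ j, ∑ s : Fin (q j), e ⟨j, s⟩ = 2 * b j - q j := by
    intro j
    have h1 : ∀ s : Fin (q j), e ⟨j, s⟩ = 2 * (if ((s : ℕ) : ℤ) < b j then 1 else 0) - 1 := by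
      intro s
      simp only [e]
      split_ifs <;> norm_num
    rw [sum_congr rfl fun s _ => h1 s, sum_sub_distrib, ← mul_sum]
    have h2 : ∑ s : Fin (q j), (if ((s : ℕ) : ℤ) < b j then (1 : ℤ) else 0) = b j := by
      rw [Fin.sum_univ_eq_sum_range (fun s => if ((s : ℕ) : ℤ) < b j then (1 : ℤ) else 0) (q j)]
      obtain ⟨k, hk⟩ := Int.eq_ofNat_of_zero_le (hb j).1
      have hkq : k ≤ q j := by
        have := (hb j).2
        rw [hk] at this
        exact_mod_cast this
      rw [hk]
      simp only [Nat.cast_lt]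
      rw [← sum_filter]
      have : (range (q j)).filter (fun s => s < k) = range k := by
        ext s
        simp only [mem_filter, mem_range]
        omega
      rw [this]
      simp
    rw [h2]
    simp
  -- half of the difference
  have hdiv : ∀ t, ∃ u : ℤ, x t - e t = 2 * u := by
    intro t
    obtain ⟨z, hz⟩ := hx t
    rcases he t with h | h
    · exact ⟨z, by rw [hz, h]; ring⟩
    · exact ⟨z + 1, by rw [hz, h]; ring⟩
  choose u hu using hdiv
  refine ⟨e, he, u, ?_, ?_⟩
  · -- block sums of `u`
    have hus : ∀ j, ∑ s : Fin (q j), u ⟨j, s⟩ = y j - b j := by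
      intro j
      have h1 : ∑ s : Fin (q j), (x ⟨j, s⟩ - e ⟨j, s⟩) = 2 * ∑ s : Fin (q j), u ⟨j, s⟩ := by
        rw [mul_sum]
        exact sum_congr rfl fun s _ => hu _
      rw [sum_sub_distrib, hy, hes] at h1
      linarith
    have hu' : u + t • emb a .centre - ∑ i, n i • emb a (.leaf i) ∈ L := by
      apply mem_of_block_sums hq L (fun j s => hmem (.chain j s))
      intro j
      have c1 : ∑ s : Fin (q j), emb (q := q) a .centre ⟨j, s⟩ = -1 := by
        rw [sum_eq_single_of_mem (⟨0, hq j⟩ : Fin (q j)) (mem_univ _)]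
        · simp [emb]
        · intro s _ hs
          have : (s : ℕ) ≠ 0 := fun h => hs (Fin.ext h)
          simp [emb, this]
      have c2 : ∀ i, ∑ s : Fin (q j), emb (q := q) a (.leaf i) ⟨j, s⟩ = q j * a i j := by
        intro i
        simp [emb]
      have c3 : ∑ s : Fin (q j), ((u + t • emb a .centre - ∑ i, n i • emb a (.leaf i) :
          (Σ j, Fin (q j)) → ℤ)) ⟨j, s⟩ =
          (y j - b j) - t - q j * ∑ i, n i * a i j := by
        simp only [Pi.sub_apply, Pi.add_apply, Pi.smul_apply, Finset.sum_apply, smul_eq_mul]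
        rw [sum_sub_distrib, sum_add_distrib, hus, ← mul_sum, c1, sum_comm]
        rw [sum_congr rfl fun i _ => by rw [← mul_sum, c2 i], mul_sum]
        have : ∀ i, n i * (q j * a i j) = q j * (n i * a i j) := fun i => by ring
        rw [sum_congr rfl fun i _ => this i]
        ring
      rw [c3]
      have := hyn j
      linarith
    have h5 : u = (u + t • emb a .centre - ∑ i, n i • emb a (.leaf i)) -
        t • emb a .centre + ∑ i, n i • emb a (.leaf i) := by abel
    rw [h5]
    exact L.add_mem (L.sub_mem hu' (L.zsmul_mem (hmem _) _))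
      (L.sum_mem fun i _ => L.zsmul_mem (hmem _) _)
  · ext t
    have := hu t
    rw [Pi.add_apply, two_smul, Pi.add_apply]
    linarith

theorem backward {m : ℕ} (p : Fin m → ℕ) (q : Fin (m + 1) → ℕ) (hq : ∀ j, 0 < q j)
    {a : Fin m → Fin (m + 1) → ℤ} (h : Model q p a) : Admissible p q := by
  let E : (Σ j, Fin (q j)) ≃ Fin (∑ j, q j) := finSigmaFinEquiv
  refine ⟨fun v t => emb a v (E.symm t), ?_, ?_⟩
  · intro x y
    rw [← emb_form hq h x y]
    congr 1
    rw [dotProduct, dotProduct, ← E.symm.sum_comp]
  · intro x hx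
    obtain ⟨e, he, l, hl, hxe⟩ := emb_covers hq h (fun r => x (E r)) fun r => hx _
    refine ⟨fun t => e (E.symm t), fun t => he _, fun t => l (E.symm t), ?_, ?_⟩
    · refine AddSubgroup.closure_induction (p := fun l _ => (fun t => l (E.symm t)) ∈
        AddSubgroup.closure (Set.range fun v t => emb (q := q) a v (E.symm t))) ?_ ?_ ?_ ?_ hl
      · rintro _ ⟨v, rfl⟩
        exact AddSubgroup.subset_closure ⟨v, rfl⟩
      · exact AddSubgroup.zero_mem _
      · intro a b _ _ ha hb
        exact AddSubgroup.add_mem _ ha hb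
      · intro a _ ha
        exact AddSubgroup.neg_mem _ ha
    · ext t
      have := congrFun hxe (E.symm t)
      simpa using this

/-- a model with matched columns added gives an admissible pair -/
theorem of_model {m : ℕ} (p : Fin m → ℕ) (q : Fin (m + 1) → ℕ) (hq : ∀ j, 0 < q j)
    {J R : Type} [Fintype J] [Fintype R] [DecidableEq J] [DecidableEq R] {q₀ : J → ℕ} {p₀ : R → ℕ}
    {a₀ : R → J → ℤ} (h : Model q₀ p₀ a₀) (S : Multiset ℕ)
    (h1 : (univ : Finset (Fin m)).val.map p = (univ : Finset R).val.map p₀ + S)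
    (h2 : (univ : Finset (Fin (m + 1))).val.map q = (univ : Finset J).val.map q₀ + S) :
    Admissible p q := by
  obtain ⟨l, rfl⟩ := Quot.exists_rep S
  change _ = _ + (l : Multiset ℕ) at h1 h2
  have hl : ((univ : Finset (Fin l.length)).val.map l.get : Multiset ℕ) = (l : Multiset ℕ) := by
    rw [Fin.univ_val_map, List.ofFn_get]
  have hsum : ∀ {X : Type} [Fintype X] [DecidableEq X] (f : X → ℕ),
      (univ : Finset (X ⊕ Fin l.length)).val.map (Sum.elim f l.get) =
        (univ : Finset X).val.map f + (l : Multiset ℕ) := by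
    intro X _ _ f
    rw [← univ_disjSum_univ, val_disjSum, Multiset.disjSum, Multiset.map_add, Multiset.map_map,
      Multiset.map_map, ← hl]
    rfl
  have hpos : ∀ k, 0 < l.get k := by
    intro k
    have h3 : l.get k ∈ (univ : Finset (Fin (m + 1))).val.map q := by
      rw [h2, Multiset.mem_add]
      right
      exact List.get_mem l k
    obtain ⟨j, _, hj⟩ := Multiset.mem_map.1 h3
    rw [← hj]
    exact hq j
  obtain ⟨e, he⟩ := exists_equiv_of_map q (Sum.elim q₀ l.get) (by rw [h2, hsum])
  obtain ⟨f, hf⟩ := exists_equiv_of_map p (Sum.elim p₀ l.get) (by rw [h1, hsum])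
  exact backward p q hq ((h.add l.get hpos).equiv e f he hf)

/-- Let `m ≥ 0`, and let `p₁, …, p_m` and `q₁, …, q_{m+1}` be odd natural numbers. The plumbing
lattice of the double branched cover of the pretzel knot `P(p₁, …, p_m, -q₁, …, -q_{m+1})` has
`∑ q_j` vertices, and it has an embedding in the standard lattice of the same rank such that each
characteristic vector is congruent modulo twice the image to a vector with all entries `1` or `-1`,
if and only if for some multiset `S` the multisets of the numbers `p_i` and `q_j` are `S` and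
`{c} ∪ S`, or `{c + 4} ∪ S` and `{1, c} ∪ S`, or `{3, 3, 3} ∪ S` and `{1, 1, 1, 1} ∪ S`. -/
theorem result (m : ℕ) (p : Fin m → ℕ) (q : Fin (m + 1) → ℕ) (hp : ∀ i, Odd (p i))
    (hq : ∀ j, Odd (q j)) :
    Nat.card (Vertex q) = ∑ j, q j ∧
      (Admissible p q ↔ ∃ S : Multiset ℕ,
        (∃ c, univ.val.map p = S ∧ univ.val.map q = c ::ₘ S) ∨
        (∃ c, univ.val.map p = (c + 4) ::ₘ S ∧ univ.val.map q = 1 ::ₘ c ::ₘ S) ∨
        (univ.val.map p = 3 ::ₘ 3 ::ₘ 3 ::ₘ S ∧
          univ.val.map q = 1 ::ₘ 1 ::ₘ 1 ::ₘ 1 ::ₘ S)) := by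
  have hq0 : ∀ j, 0 < q j := fun j => (hq j).pos
  refine ⟨?_, ?_, ?_⟩
  · let f : Vertex q ≃ Unit ⊕ (Σ j, Fin (q j - 1)) ⊕ Fin m :=
      { toFun := fun v => match v with
          | .centre => Sum.inl ()
          | .chain j s => Sum.inr (Sum.inl ⟨j, s⟩)
          | .leaf i => Sum.inr (Sum.inr i)
        invFun := fun r => match r with
          | Sum.inl _ => .centre
          | Sum.inr (Sum.inl ⟨j, s⟩) => .chain j s
          | Sum.inr (Sum.inr i) => .leaf i
        left_inv := by rintro (_ | _ | _) <;> rfl
        right_inv := by rintro (_ | ⟨_, _⟩ | _) <;> rfl }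
    rw [Nat.card_congr f]
    simp only [Nat.card_eq_fintype_card, Fintype.card_sum, Fintype.card_unit, Fintype.card_sigma,
      Fintype.card_fin]
    have : ∑ j, q j = ∑ j, (q j - 1) + (m + 1) := by
      have h1 : ∑ j, q j = ∑ j, ((q j - 1) + 1) := sum_congr rfl fun j _ => by
        have := hq0 j; omega
      rw [h1, sum_add_distrib]
      simp
    omega
  · intro h
    obtain ⟨a, ha⟩ := system p q hp hq h
    exact ha.classify
  · rintro ⟨S, ⟨c, h1, h2⟩ | ⟨c, h1, h2⟩ | ⟨h1, h2⟩⟩
    · refine of_model p q hq0 (model_one c) S ?_ ?_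
      · rw [h1]; simp
      · rw [h2]; simp
    · refine of_model p q hq0 (model_two c) S ?_ ?_
      · rw [h1]; simp
      · rw [h2]
        have : (univ : Finset Bool).val = true ::ₘ {false} := rfl
        rw [this]
        simp
    · refine of_model p q hq0 model_three S ?_ ?_
      · rw [h1]
        have : (univ : Finset (Fin 3)).val.map (fun _ => 3) = 3 ::ₘ 3 ::ₘ {3} := rfl
        rw [this]
        simp
      · rw [h2]
        have : (univ : Finset (Fin 4)).val.map (fun _ => 1) = 1 ::ₘ 1 ::ₘ 1 ::ₘ {1} := rfl
        rw [this]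
        simp

end Pool.Agent.Results.MP_752436_gt.EveryOddPretzelKnot
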