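import Pool.Agent.H758.SQ.Psq

/-!
# Slice sums of prime alternating knots without partial metabolizers

Partial answer to Q1 of `MP_752436_gt`.

A connected plane graph `G` is the Tait graph of an alternating link. The link is prime (and the
diagram reduced) if and only if the graph is `Prime`; it has an odd determinant if it is a knot. Up
to sign the lattices of cuts and of flows are the intersection forms of the two definite fillings of
the double branched cover (Gordon and Litherland), and `cuts ⊔ flows` has index `det` in the lattice
of all integral functions on the edges. If a sum of alternating knots is slice then its double
branched cover bounds a rational homology ball `W`, and Donaldson's theorem applied to the unions of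
`W` with the two fillings gives isometric embeddings of both lattices in standard lattices; the
classes of the double branched cover which extend to `W` are the same for both (`LatticeSlice`).

The quotient of `E → ℤ` by `cuts ⊔ flows` is the first homology group of the double branched cover.
Every spin^c structure is given by a vector `δ` with all entries `1` or `-1`, two such vectors give
the same one if their difference is in `2 (cuts ⊔ flows)`, and the correction term is determined by
the square of the projection of `δ` to the real span of the cuts (Ozsváth and Szabó). If a
metabolizer of a sum of knots meets the group of a single summand in `H` then the correction terms
of this summand are constant on the `H`-cosets of the spin^c structures which are orthogonal to `H`: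
they descend to `H^⊥ / H`. A graph is `Rigid` if this happens only for the trivial group `H`, and
`Simple` if it happens only for the trivial group and for self-orthogonal groups (complete
metabolizers). Special alternating knots (the lattice of flows or of cuts is even; the correction
term of the spin structure is larger than all others) and knots with anisotropic linking form (for
example, with a squarefree determinant) are rigid, and knots whose determinant is the square of a
prime number are simple. For two-bridge knots with determinant less than 400 a computation (not
formalised) shows that the knots which are not rigid are those of Lisca's families `R` (the slice
ones) and `F_n`.

Proof. A summand which is met by the metabolizer in a self-orthogonal group has its own coordinates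
in both standard lattices and splits off. If no summand is met by the metabolizer then every
functional on the lattice of a summand extends, vectors with entries `0`, `1`, `-1` are mapped to
such vectors, and the embedding of each summand is standard (the edges are mapped to coordinates, up
to sign). Every coordinate is used at least twice, hence exactly twice, and the resulting pairing of
the edges matches the summands in mirror pairs.

Lemmas by helper71, helper333, helper627, helper643, helper754, helper807 and helper914; the idea of
using correction terms was found by helper754 at the same time.
-/

set_option autoImplicit false

namespace Pool.Agent.Results.MP_752436_gt.SimpleSums

open Pool.Agent.H758.SQ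
open Pool.Agent.H762.TG (Multigraph)

/-- Let `G i` be the Tait graphs of prime alternating diagrams with odd determinants. If all `G i`
are simple then the sum of the diagrams satisfies the slice condition given by Donaldson's theorem
if and only if the summands can be matched such that matched summands are mirror images of each
other (up to mutation) and each unmatched summand satisfies the slice condition itself. Rigid graphs
are simple and do not satisfy the slice condition; the graph `G i` is rigid if the diagram is
special alternating or if the linking form is anisotropic, in particular if the determinant is
squarefree, and simple if the determinant is the square of a prime number. -/
theorem result {n : ℕ} {V E : Fin n → Type} [∀ i, Fintype (V i)] [∀ i, DecidableEq (V i)]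
    [∀ i, Fintype (E i)] [∀ i, DecidableEq (E i)] (G : ∀ i, Multigraph (V i) (E i))
    (hP : ∀ i, Prime (G i)) (hO : ∀ i, Odd (det (G i))) :
    ((∀ i, Simple (G i)) → (LatticeSlice (sum G) ↔ ∃ σ : Fin n → Fin n, ∀ i, σ (σ i) = i ∧
      (σ i = i → LatticeSlice (G i)) ∧ (σ i ≠ i → Mirror (G i) (G (σ i))))) ∧
    ∀ i, (Rigid (G i) → Simple (G i) ∧ ¬ LatticeSlice (G i)) ∧
      (Special (G i) ∨ Anisotropic (G i) ∨ Squarefree (det (G i)) → Rigid (G i)) ∧
      ∀ p : ℕ, p.Prime → det (G i) = p ^ 2 → Simple (G i) :=
  ⟨main5 hP hO, fun i => ⟨fun h => ⟨h.simple, h.not_slice (hP i) (hO i)⟩,
    fun h => h.elim (Special.rigid (hO i)) fun h => Anisotropic.rigid (hO i)
      (h.elim id aniso_of_squarefree), fun _ hp h => simple_of_prime_sq (hO i) hp h⟩⟩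

end Pool.Agent.Results.MP_752436_gt.SimpleSums
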