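import Pool.Agent.H754.Twist.Family

/-!
# Alternating links with a given number of twist regions

Partial answer to Q1 of `MP_752436_gt`.

Let `G` be a plane graph whose edges stand for the `m` twist regions of an alternating link `K`: the
Tait graph of `K` arises from `G` by replacing each edge `e` of a set `S` by a path of `ℓ e` edges
and each other edge `e` by `ℓ e` parallel edges. The two lattices below are then the intersection
forms (up to sign) of the two definite fillings of the double branched cover of `K` (Gordon and
Litherland). If `K` is a slice knot, or if the double branched cover of `K` bounds a rational ball,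
then Donaldson's theorem says that both are embedded in standard lattices of the same rank.

For a fixed pair `G`, `S` the theorem describes all length vectors `ℓ`, long or short, for which both
embeddings exist: they form finitely many families in each of which the regions of the cycles of a
permutation are lengthened simultaneously; this permutation exchanges the two types of regions on
each of its cycles with more than one element.

The graph `G` need not be planar or connected.
-/

set_option autoImplicit false

namespace Pool.Agent.Results.MP_752436_gt.TwistFamilies

open Pool.Agent.H762.TG Pool.Agent.H762.MX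

/-- A shape of alternating diagrams: a finite graph without loops and bridges and a set `S` of its
edges such that no two edges of `S` are in series and no two of the others are parallel. Then the
edges are the twist regions of the alternating diagrams of this shape. -/
def Shape {V E : Type} [Fintype E] [DecidableEq V] (G : Multigraph V E) (S : Finset E) : Prop :=
  (∀ e, (∃ x ∈ G.cuts, x e ≠ 0) ∧ ∃ y ∈ G.flows, y e ≠ 0) ∧
  (∀ e ∈ S, ∀ f ∈ S, G.Series e f → e = f) ∧
  ∀ e, e ∉ S → ∀ f, f ∉ S → Parallel G e f → e = f

/-- The family of length vectors given by a permutation `σ` of the regions and a vector `k`: all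
`k + t` with `t` constant on the cycles of `σ` and zero at the fixed points of `σ`. -/
def InFamily {E : Type} (σ : Equiv.Perm E) (k ℓ : E → ℕ) : Prop :=
  ∃ t : E → ℕ, (∀ e, t (σ e) = t e ∧ (σ e = e → t e = 0)) ∧ ∀ e, ℓ e = k e + t e

/-- Let `G`, `S` be a shape with `m` regions. There are finitely many pairs `(σ, k)`, `σ` a
permutation of the regions for which `e` and `σ e` have different types whenever they differ, `k`
a vector with `1 ≤ k e ≤ (3 m + 2) ^ (m + 2)`, such that for all positive length vectors `ℓ` both
lattices of the diagram with the lengths `ℓ` are embedded in standard lattices of the same rank if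
and only if `ℓ` is in the family of one of these pairs. -/
theorem result {V E : Type} [Fintype V] [Fintype E] [DecidableEq V] [DecidableEq E] [Nonempty E]
    (G : Multigraph V E) (S : Finset E) (h : Shape G S) :
    ∃ 𝓕 : Finset (Equiv.Perm E × (E → ℕ)),
      (∀ p ∈ 𝓕, (∀ e, p.1 e ≠ e → (e ∈ S ↔ p.1 e ∉ S)) ∧
        ∀ e, 1 ≤ p.2 e ∧ p.2 e ≤ (3 * Fintype.card E + 2) ^ (Fintype.card E + 2)) ∧
      ∀ ℓ : E → ℕ, (∀ e, 1 ≤ ℓ e) →
        (StdEmbeds (blowup G.cuts S ℓ) ∧ StdEmbeds (blowup G.flows Sᶜ ℓ) ↔
          ∃ p ∈ 𝓕, InFamily p.1 p.2 ℓ) :=
  Pool.Agent.H754.Twist.families G S h.1 h.2.1 h.2.2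

end Pool.Agent.Results.MP_752436_gt.TwistFamilies
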