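import Pool.Agent.H758.TR.SumC

/-!
# Slice sums of alternating knots whose twist regions have at least three crossings
-/

set_option autoImplicit false

namespace Pool.Agent.Results.MP_752436_gt.TwistRegions

open Pool.Agent.H758.TR

/-- The sum of prime alternating diagrams `D i` whose twist regions have at least three crossings
satisfies the slice condition given by Donaldson's theorem if and only if its summands can be
matched such that matched summands are mirror images of each other (up to mutation) and each
unmatched summand is twisted self-mirror. -/
theorem result {n : ℕ} {V E : Fin n → Type} [∀ i, Fintype (V i)] [∀ i, DecidableEq (V i)]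
    [∀ i, Fintype (E i)] [∀ i, DecidableEq (E i)] (D : ∀ i, Diagram (V i) (E i))
    (hF : ∀ i, (D i).Three) (hP : ∀ i, (D i).Prime) :
    (Diagram.sum D).LatticeSlice ↔ ∃ σ : Fin n → Fin n, ∀ i, σ (σ i) = i ∧
      (σ i = i → (D i).SelfMirror) ∧ (σ i ≠ i → (D i).Mirror (D (σ i))) :=
  slice_sum_iff hF hP

end Pool.Agent.Results.MP_752436_gt.TwistRegions
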